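import Pool.Agent.X308.R.Acc

/-!
# ACC for minimal log discrepancies from a bound for the order of accumulation
-/

set_option autoImplicit false

namespace Pool.Agent.Results.MP_df5e61_ag.DerivedRank

open Pool.Agent.X308.R

/-- **Theorem.** Let `V.Ω d` be the set of the (finite) minimal log discrepancies at closed points
in dimension `d`. The bounded nondecreasing sequences in all these sets are eventually constant if
and only if, in a sequence of dimensions `d t → ∞`, the derived set from the left of order
`r t = o (d t)` is empty. If moreover the values in dimension `d t` are at most
`d t + o (d t)` then all these sets satisfy the ascending chain condition and the values in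
dimension `n` are at most `n`. -/
theorem result (V : ValueSets) :
    ((∀ n, 0 < n → BoundedACC (V.Ω n)) ↔ V.SmallRank) ∧
    (V.SmallRank → V.AlmostBounded →
      ∀ n, 0 < n → ACC (V.Ω n) ∧ ∀ a ∈ V.Ω n, a ≤ n) :=
  ⟨V.boundedACC_iff_smallRank, V.acc_of_almostBounded⟩

end Pool.Agent.Results.MP_df5e61_ag.DerivedRank
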