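import Mathlib
import Pool.Agent.TH165.ACC.NFin

/-!
# ACC for minimal log discrepancies on toric germs with nondegenerate boundaries

`ToricGerm n K`: an affine toric variety `X` of dimension `n` with function field `K` and with a
fixed point `P`, given by any strictly convex rational cone of dimension `n`, simplicial or not. The
boundary `B` is an arbitrary effective `ℝ`-divisor on `X`; its components need not be invariant under
the torus. `K_X + B` is `ℝ`-Cartier at `P`, with the local equation `e`; `K_X` need not be
`ℚ`-Cartier. The minimal log discrepancy `mld (X ∋ P, B)` is the least log discrepancy of all prime
divisors over `X` with centre `P` (`IsMld`).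

`NondegBoundary g B`: the coefficients of `B` are at most `1`, and the components of `B` through `P`
which meet the torus are components of the zero divisors of the members `p j` of a system of
polynomials which is nondegenerate at `P`: for all weights in the interior of the cone, at every
point of the torus the logarithmic gradients of those initial forms of the `p j` which vanish there
are linearly independent (Khovanskii, Kouchnirenko). `Computed e m`: the minimal log discrepancy `m`
is the log discrepancy of a monomial valuation.

The proof: the minimal log discrepancy of a nondegenerate pair is computed by a monomial valuation,
by a Jacobian inequality. The monomial valuations over the germ are those of a quotient of the affine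
space by a finite group, in the weights of a simplicial cone (Caratheodory); the finite groups are
subgroups of a real torus, and the Newton polyhedra of the components are sets of monomials; by
compactness of the space of closed subgroups of the torus, by Dickson's lemma and by the descending
chain condition for the coefficients, a strictly increasing sequence of minimal log discrepancies
leads to a contradiction.
-/

set_option autoImplicit false

namespace Pool.Agent.Results.MP_df5e61_ag.ToricGermsACC

open Pool.Agent.TH165.ACC Pool.Agent.W497.Mld Pool.Agent.H436R3.KT

/-- For every `n` and every DCC set `Γ` of real numbers, the set of all minimal log discrepancies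
`m = mld (X ∋ P, B) ≥ 0`, where `X ∋ P` is a toric germ of dimension `n` and `B` is an effective
`ℝ`-divisor on `X` with coefficients in `Γ`, with `K_X + B` `ℝ`-Cartier at `P`, which is
nondegenerate at `P`, or such that `m` is the log discrepancy of a monomial valuation, satisfies the
ascending chain condition. -/
theorem result (n : ℕ) (Γ : Set ℝ) (hΓ : Pool.Agent.TH165.ACC.IsDCC Γ) :
    IsACC {m : ℝ | 0 ≤ m ∧ ∃ (g : ToricGerm n (FractionRing (MvPolynomial (Fin n) ℂ)))
      (B : EffDiv g.X) (e : LocEq B g.P), CoeffIn B Γ ∧ Pool.Agent.W497.Mld.IsMld e m ∧
        (NondegBoundary g B ∨ Computed e m)} := by
  intro u hu hmem
  refine geo_acc' (n := n) (K := FractionRing (MvPolynomial (Fin n) ℂ)) hΓ u hu fun k => ?_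
  obtain ⟨h0, g, B, e, hB, hm, hc⟩ := hmem k
  exact ⟨h0, g, B, e, hB, hm, hc.symm⟩

end Pool.Agent.Results.MP_df5e61_ag.ToricGermsACC
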